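import Mathlib
import Pool.Agent.Helper41.RSVD.Final

/-!
# MP_569b71_an: no sketch-based algorithm beats the randomized SVD with an orthonormal embedding

Full (affirmative) answer to Q1.  `frob2 A` is the squared Frobenius norm of a matrix, and
`tailSq q A` the squared Frobenius distance of `A` to the matrices of rank at most `q`, i.e. the
squared error of a best rank-`q` approximation of `A` (equal to the sum of the squares of the
singular values of `A` beyond the `q`-th).  Matrix spaces carry the product (= Borel) sigma-algebra.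
-/

namespace Pool.Agent.Results.MP_569b71_an.SketchLowerBound

open MeasureTheory Matrix Pool.Agent.Helper41.RSVD
open scoped ENNReal

universe u

/-- The worst case over all `d × n` matrices `A` of rank `r` (with `‖A - ⟦A⟧_q‖_F > 0`) of the
ratio `ρ_q(A) = E ‖A - ALG(Ω, AΩ, A*AΩ)‖_F² / ‖A - ⟦A⟧_q‖_F²`. -/
noncomputable def worstRatio {𝕜 : Type} [RCLike 𝕜] {d n l : ℕ} (q r : ℕ)
    {S : Type u} [MeasurableSpace S] (μ : Measure S) (Om : S → Matrix (Fin n) (Fin l) 𝕜)
    (alg : Matrix (Fin n) (Fin l) 𝕜 × Matrix (Fin d) (Fin l) 𝕜 × Matrix (Fin n) (Fin l) 𝕜 →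
      Matrix (Fin d) (Fin n) 𝕜) : ℝ≥0∞ :=
  ⨆ A : {A : Matrix (Fin d) (Fin n) 𝕜 // A.rank = r ∧ 0 < tailSq q A},
    (∫⁻ ω, ENNReal.ofReal (frob2 (A.1 - alg (Om ω, A.1 * Om ω, A.1ᴴ * A.1 * Om ω))) ∂μ) /
      ENNReal.ofReal (tailSq q A.1)

/-- The statement of Q1 over the field `𝕜` with the constant `α`. -/
def LowerBound (𝕜 : Type) [RCLike 𝕜] [MeasurableSpace 𝕜] [BorelSpace 𝕜] (α : ℕ) : Prop :=
  ∀ d n l q r : ℕ, 1 ≤ q → q + α < l → l ≤ r → r ≤ min d n →
  ∀ (S : Type u) [MeasurableSpace S] (μ : Measure S) [IsProbabilityMeasure μ]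
    (Om : S → Matrix (Fin n) (Fin l) 𝕜), Measurable Om → (∀ᵐ ω ∂μ, (Om ω).rank = l) →
  ∀ alg : Matrix (Fin n) (Fin l) 𝕜 × Matrix (Fin d) (Fin l) 𝕜 × Matrix (Fin n) (Fin l) 𝕜 →
      Matrix (Fin d) (Fin n) 𝕜, Measurable alg →
    ENNReal.ofReal (((r : ℝ) - l) / (r - q) * (1 + q / (l - q - α))) ≤ worstRatio q r μ Om alg

/-- **Optimality of the randomized SVD among all sketch-based algorithms**: the affirmative answer
to Q1, over `ℝ` (with `α = 1`) and over `ℂ` (with `α = 0`). -/
theorem result : LowerBound.{u} ℝ 1 ∧ LowerBound.{u} ℂ 0 := by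
  constructor
  · intro d n l q r _ hl hlr hr S _ μ _ Om hOm _ alg halg
    exact general d n l q r 1 (by simp) hl hlr (le_trans hr (min_le_left _ _))
      (le_trans hr (min_le_right _ _)) μ Om hOm alg halg
  · intro d n l q r _ hl hlr hr S _ μ _ Om hOm _ alg halg
    exact general d n l q r 0 (by simp [Complex.finrank_real_complex]) hl hlr
      (le_trans hr (min_le_left _ _)) (le_trans hr (min_le_right _ _)) μ Om hOm alg halg

end Pool.Agent.Results.MP_569b71_an.SketchLowerBound
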